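import Mathlib
import Pool.Agent.Q167.SL.StmD

/-!
# Project SL2 of helper167, job CUT: the dual function
-/

set_option autoImplicit false

open MeasureTheory Filter Topology

namespace Pool.Agent.Q154.SL

open Pool.Agent.Q167.SL

/-- the square of the positive part -/
noncomputable def sp (x : ℝ) : ℝ := max x 0 ^ 2

theorem sp_deriv (x : ℝ) : HasDerivAt sp (2 * max x 0) x := by
  rcases lt_trichotomy x 0 with hx | hx | hx
  · rw [max_eq_right hx.le, mul_zero]
    refine (hasDerivAt_const x (0 : ℝ)).congr_of_eventuallyEq ?_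
    filter_upwards [gt_mem_nhds hx] with y hy
    simp [sp, max_eq_right hy.le]
  · subst hx
    rw [max_self, mul_zero, ← hasDerivWithinAt_univ, ← Set.Iic_union_Ici (a := (0 : ℝ))]
    refine HasDerivWithinAt.union ?_ ?_
    · refine ((hasDerivAt_const (0 : ℝ) (0 : ℝ)).hasDerivWithinAt).congr ?_ (by simp [sp])
      intro y hy
      simp [sp, max_eq_right (Set.mem_Iic.1 hy)]
    · have h : HasDerivAt (fun y : ℝ => y ^ 2) (0 : ℝ) 0 := by
        simpa using hasDerivAt_pow 2 (0 : ℝ)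
      refine h.hasDerivWithinAt.congr ?_ (by simp [sp])
      intro y hy
      simp [sp, max_eq_left (Set.mem_Ici.1 hy)]
  · rw [max_eq_left hx.le]
    have h : HasDerivAt (fun y : ℝ => y ^ 2) (2 * x) x := by
      simpa using hasDerivAt_pow 2 x
    refine h.congr_of_eventuallyEq ?_
    filter_upwards [lt_mem_nhds hx] with y hy
    simp [sp, max_eq_left hy.le]

/-- a `C¹` step -/
noncomputable def stp (x : ℝ) : ℝ := 2 * sp x - 4 * sp (x - 1 / 2) + 2 * sp (x - 1)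

noncomputable def stpd (x : ℝ) : ℝ := 4 * max x 0 - 8 * max (x - 1 / 2) 0 + 4 * max (x - 1) 0

theorem stp_deriv (x : ℝ) : HasDerivAt stp (stpd x) x := by
  have h1 := (sp_deriv x).const_mul 2
  have h2 := ((sp_deriv (x - 1 / 2)).comp x ((hasDerivAt_id x).sub_const (1 / 2))).const_mul 4
  have h3 := ((sp_deriv (x - 1)).comp x ((hasDerivAt_id x).sub_const 1)).const_mul 2
  have h := (h1.sub h2).add h3
  have e : stpd x = 2 * (2 * max x 0) - 4 * (2 * max (x - 1 / 2) 0 * 1) +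
      2 * (2 * max (x - 1) 0 * 1) := by unfold stpd; ring
  rw [e]
  exact h

theorem stpd_cont : Continuous stpd := by unfold stpd; fun_prop

theorem stp_cases (x : ℝ) : 0 ≤ stp x ∧ stp x ≤ 1 ∧ |stpd x| ≤ 2 := by
  unfold stp stpd sp
  rcases le_or_gt x 0 with h1 | h1
  · rw [max_eq_right h1, max_eq_right (by linarith : x - 1 / 2 ≤ 0),
      max_eq_right (by linarith : x - 1 ≤ 0)]
    norm_num
  · rw [max_eq_left h1.le]
    rcases le_or_gt x (1 / 2) with h2 | h2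
    · rw [max_eq_right (by linarith : x - 1 / 2 ≤ 0), max_eq_right (by linarith : x - 1 ≤ 0)]
      refine ⟨by nlinarith [sq_nonneg x], by nlinarith, ?_⟩
      rw [abs_le]
      constructor <;> linarith
    · rw [max_eq_left (by linarith : 0 ≤ x - 1 / 2)]
      rcases le_or_gt x 1 with h3 | h3
      · rw [max_eq_right (by linarith : x - 1 ≤ 0)]
        refine ⟨by nlinarith, by nlinarith [sq_nonneg (x - 1)], ?_⟩
        rw [abs_le]
        constructor <;> linarith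
      · rw [max_eq_left (by linarith : 0 ≤ x - 1)]
        refine ⟨by nlinarith, by nlinarith, ?_⟩
        rw [abs_le]
        constructor <;> linarith

theorem stp_zero {x : ℝ} (hx : x ≤ 0) : stp x = 0 ∧ stpd x = 0 := by
  unfold stp stpd sp
  rw [max_eq_right hx, max_eq_right (by linarith : x - 1 / 2 ≤ 0),
      max_eq_right (by linarith : x - 1 ≤ 0)]
  norm_num

theorem stp_one {x : ℝ} (hx : 1 ≤ x) : stp x = 1 := by
  unfold stp sp
  rw [max_eq_left (by linarith : 0 ≤ x), max_eq_left (by linarith : 0 ≤ x - 1 / 2),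
      max_eq_left (by linarith : 0 ≤ x - 1)]
  ring

/-- the scaled step -/
noncomputable def st (c Δ τ : ℝ) : ℝ := stp ((τ - c) / Δ)

noncomputable def std (c Δ τ : ℝ) : ℝ := stpd ((τ - c) / Δ) * (1 / Δ)

theorem st_deriv (c Δ τ : ℝ) : HasDerivAt (st c Δ) (std c Δ τ) τ :=
  (stp_deriv ((τ - c) / Δ)).comp τ (((hasDerivAt_id τ).sub_const c).div_const Δ)

theorem std_cont (c Δ : ℝ) : Continuous (std c Δ) := by
  unfold std
  have := stpd_cont
  fun_prop

theorem std_abs {c Δ : ℝ} (hΔ : 0 < Δ) (τ : ℝ) : |std c Δ τ| ≤ 2 / Δ := by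
  unfold std
  rw [abs_mul, abs_of_pos (by positivity : 0 < 1 / Δ)]
  have h := (stp_cases ((τ - c) / Δ)).2.2
  calc |stpd ((τ - c) / Δ)| * (1 / Δ) ≤ 2 * (1 / Δ) :=
        mul_le_mul_of_nonneg_right h (by positivity)
    _ = 2 / Δ := by ring

theorem st_zero {c Δ τ : ℝ} (hΔ : 0 < Δ) (h : τ ≤ c) : st c Δ τ = 0 ∧ std c Δ τ = 0 := by
  unfold st std
  have h1 := stp_zero (x := (τ - c) / Δ) (div_nonpos_of_nonpos_of_nonneg (by linarith) hΔ.le)
  rw [h1.1, h1.2]
  simp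

theorem st_one {c Δ τ : ℝ} (hΔ : 0 < Δ) (h : c + Δ ≤ τ) : st c Δ τ = 1 := by
  unfold st
  exact stp_one (by rw [le_div_iff₀ hΔ]; linarith)

theorem cut : S_cut := by
  intro hlin hext n r t₀ Δ θ θ₁ M D Dv v vd hn hr hr1 hΔ ht₀ ht₁ hθ h6θ hθ₁ hM hD hfam hv hvd hv1
    hv2 hv3 hBv h84
  obtain ⟨lin1, lin2, lin3, lin4⟩ := hlin n r hn hr hr1
  set K : ℝ := 1 + 2 / Δ with hK
  have hK1 : 1 ≤ K := by
    have : 0 < 2 / Δ := by positivity
    linarith
  have hK0 : 0 ≤ K := by linarith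
  have hKΔ : 2 / Δ ≤ K := by linarith
  have hvc : Continuous v := continuous_iff_continuousAt.2 fun τ => (hv τ).continuousAt
  set χ : ℝ → ℝ := st (t₀ + 3 * Δ) Δ with hχ
  set χd : ℝ → ℝ := std (t₀ + 3 * Δ) Δ with hχd
  set b : ℝ → ℝ := fun τ => 1 - st (t₀ + 4 * Δ) Δ τ with hb
  set bd : ℝ → ℝ := fun τ => -std (t₀ + 4 * Δ) Δ τ with hbd
  have hχc : ∀ τ, 0 ≤ χ τ ∧ χ τ ≤ 1 := fun τ =>
    ⟨(stp_cases _).1, (stp_cases _).2.1⟩
  have hbc : ∀ τ, 0 ≤ b τ ∧ b τ ≤ 1 := fun τ => by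
    have h1 := (stp_cases ((τ - (t₀ + 4 * Δ)) / Δ)).1
    have h2 := (stp_cases ((τ - (t₀ + 4 * Δ)) / Δ)).2.1
    simp only [hb, st]
    constructor <;> linarith
  have hsub : ∀ τ ∈ Set.Icc (t₀ + Δ) 1, τ ∈ Set.Icc (-1 : ℝ) 1 := fun τ hτ =>
    ⟨by linarith [hτ.1], hτ.2⟩
  -- first extension
  obtain ⟨w₁, hw1c, hw1e, hw1b, hw1B⟩ := hext n r (t₀ + Δ) θ M D hn hr hr1 (by linarith)
    (by linarith) hθ hM hD h6θ hfam (K * θ₁) (fun τ => (χ τ : ℂ) * (1 - v τ))
    (fun τ => (χd τ : ℂ) * (1 - v τ) + (χ τ : ℂ) * (-vd τ)) (by positivity)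
    (fun τ _ => by
      have h1 : HasDerivAt (fun τ : ℝ => (χ τ : ℂ)) (χd τ : ℂ) τ :=
        (st_deriv (t₀ + 3 * Δ) Δ τ).ofReal_comp
      have h2 : HasDerivAt (fun τ : ℝ => 1 - v τ) (-vd τ) τ := (hv τ).const_sub 1
      exact (h1.mul h2).hasDerivWithinAt)
    (by
      have h1 : Continuous χd := std_cont _ _
      have h2 : Continuous χ := continuous_iff_continuousAt.2 fun τ =>
        (st_deriv (t₀ + 3 * Δ) Δ τ).continuousAt
      have h3 : Continuous (fun τ : ℝ => (χ τ : ℂ)) := Complex.continuous_ofReal.comp h2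
      have h4 : Continuous (fun τ : ℝ => (χd τ : ℂ)) := Complex.continuous_ofReal.comp h1
      exact ((h4.mul (continuous_const.sub hvc)).add (h3.mul hvd.neg)).continuousOn)
    (fun τ hτ => by
      have hτ1 := hsub τ hτ
      rcases le_or_gt τ (t₀ + 3 * Δ) with h | h
      · have h0 := st_zero (c := t₀ + 3 * Δ) hΔ h
        have e1 : χ τ = 0 := h0.1
        have e2 : χd τ = 0 := h0.2
        rw [e1, e2]
        simp only [Complex.ofReal_zero, zero_mul, add_zero, norm_zero]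
        constructor <;> positivity
      · obtain ⟨g1, g2⟩ := hv1 τ hτ1 h.le
        have g1' : ‖1 - v τ‖ ≤ θ₁ := by rw [norm_sub_rev]; exact g1
        have hx : ‖(χ τ : ℂ)‖ ≤ 1 := by
          rw [Complex.norm_real, Real.norm_eq_abs, abs_of_nonneg (hχc τ).1]
          exact (hχc τ).2
        have hxd : ‖(χd τ : ℂ)‖ ≤ 2 / Δ := by
          rw [Complex.norm_real, Real.norm_eq_abs]
          exact std_abs hΔ τ
        constructor
        · rw [norm_mul]
          calc ‖(χ τ : ℂ)‖ * ‖1 - v τ‖ ≤ 1 * θ₁ :=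
                mul_le_mul hx g1' (norm_nonneg _) zero_le_one
            _ ≤ K * θ₁ := mul_le_mul_of_nonneg_right hK1 hθ₁
        · refine (norm_add_le _ _).trans ?_
          rw [norm_mul, norm_mul, norm_neg]
          have k1 : ‖(χd τ : ℂ)‖ * ‖1 - v τ‖ ≤ 2 / Δ * θ₁ :=
            mul_le_mul hxd g1' (norm_nonneg _) (by positivity)
          have k2 : ‖(χ τ : ℂ)‖ * ‖vd τ‖ ≤ 1 * θ₁ :=
            mul_le_mul hx g2 (norm_nonneg _) zero_le_one
          calc ‖(χd τ : ℂ)‖ * ‖1 - v τ‖ + ‖(χ τ : ℂ)‖ * ‖vd τ‖ ≤ 2 / Δ * θ₁ + 1 * θ₁ :=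
                add_le_add k1 k2
            _ = K * θ₁ := by rw [hK]; ring)
  -- second extension
  obtain ⟨w₂, hw2c, hw2e, hw2b, hw2B⟩ := hext n r (t₀ + Δ) θ M D hn hr hr1 (by linarith)
    (by linarith) hθ hM hD h6θ hfam K (fun τ => (b τ : ℂ)) (fun τ => (bd τ : ℂ)) hK0
    (fun τ _ => by
      have h1 : HasDerivAt b (bd τ) τ := (st_deriv (t₀ + 4 * Δ) Δ τ).const_sub 1
      exact h1.ofReal_comp.hasDerivWithinAt)
    (by
      have h1 : Continuous bd := (std_cont _ _).neg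
      exact (Complex.continuous_ofReal.comp h1).continuousOn)
    (fun τ _ => by
      rw [Complex.norm_real, Complex.norm_real, Real.norm_eq_abs, Real.norm_eq_abs]
      constructor
      · rw [abs_of_nonneg (hbc τ).1]
        exact (hbc τ).2.trans hK1
      · simp only [hbd]
        rw [abs_neg]
        exact (std_abs hΔ τ).trans hKΔ)
  have hval : ∀ τ : ℝ, ((v τ + w₁ τ) + (-(θ₁ : ℂ)) * w₂ τ).re =
      (v τ).re + (w₁ τ).re - θ₁ * (w₂ τ).re := by
    intro τ
    rw [Complex.add_re, Complex.add_re, Complex.mul_re, Complex.neg_re, Complex.neg_im,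
      Complex.ofReal_re, Complex.ofReal_im]
    ring
  have hval2 : ∀ τ ∈ Set.Icc (t₀ + Δ) 1, ((v τ + w₁ τ) + (-(θ₁ : ℂ)) * w₂ τ).re =
      (v τ).re + χ τ * (1 - (v τ).re) - θ₁ * b τ := by
    intro τ hτ
    rw [hval, hw1e τ hτ, hw2e τ hτ]
    simp only [Complex.ofReal_re, Complex.re_ofReal_mul, Complex.sub_re, Complex.one_re]
  have hreb : ∀ τ ∈ Set.Icc (-1 : ℝ) 1, t₀ + 3 * Δ ≤ τ → |1 - (v τ).re| ≤ θ₁ := by
    intro τ hτ h
    have h1 := (hv1 τ hτ h).1
    have h2 := Complex.abs_re_le_norm (v τ - 1)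
    rw [Complex.sub_re, Complex.one_re, abs_sub_comm] at h2
    exact h2.trans h1
  refine ⟨fun τ => ((v τ + w₁ τ) + (-(θ₁ : ℂ)) * w₂ τ).re, ?_, ?_, ?_, ?_⟩
  · exact Complex.continuous_re.comp ((hvc.add hw1c).add (continuous_const.mul hw2c))
  · intro τ h1 h2
    have hτ : τ ∈ Set.Icc (t₀ + Δ) 1 := ⟨by linarith, h2⟩
    have e1 : χ τ = 1 := st_one hΔ (by linarith)
    have e2 : st (t₀ + 4 * Δ) Δ τ = 1 := st_one hΔ (by linarith)
    have e3 : b τ = 0 := by simp only [hb]; rw [e2]; ring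
    show ((v τ + w₁ τ) + (-(θ₁ : ℂ)) * w₂ τ).re = 1
    rw [hval2 τ hτ, e1, e3]
    ring
  · intro τ h1 h2
    have hτ1 : τ ∈ Set.Icc (-1 : ℝ) 1 := ⟨h1, h2⟩
    show ((v τ + w₁ τ) + (-(θ₁ : ℂ)) * w₂ τ).re ≤ 1
    rcases le_or_gt (t₀ + Δ) τ with ha | ha
    · have hτ : τ ∈ Set.Icc (t₀ + Δ) 1 := ⟨ha, h2⟩
      rw [hval2 τ hτ]
      rcases le_or_gt τ (t₀ + 4 * Δ) with h4 | h4
      · have e3 : b τ = 1 := by
          simp only [hb]
          rw [(st_zero hΔ h4).1]
          ring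
        rw [e3]
        rcases le_or_gt τ (t₀ + 3 * Δ) with h3 | h3
        · have e1 : χ τ = 0 := (st_zero hΔ h3).1
          rw [e1]
          have := hv2 τ hτ1
          linarith
        · have h5 := hreb τ hτ1 h3.le
          have h6 := neg_abs_le (1 - (v τ).re)
          have h7 : 0 ≤ 1 - χ τ := by linarith [(hχc τ).2]
          have h8 : (1 - χ τ) * -(1 - (v τ).re) ≤ (1 - χ τ) * θ₁ :=
            mul_le_mul_of_nonneg_left (by linarith) h7
          have h9 : (1 - χ τ) * θ₁ ≤ 1 * θ₁ :=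
            mul_le_mul_of_nonneg_right (by linarith [(hχc τ).1]) hθ₁
          nlinarith
      · have e1 : χ τ = 1 := st_one hΔ (by linarith)
        rw [e1]
        have : 0 ≤ θ₁ * b τ := mul_nonneg hθ₁ (hbc τ).1
        linarith
    · rw [hval]
      have h3 := hv3 τ hτ1 (by linarith)
      have h4 : (w₁ τ).re ≤ 6 * (K * θ₁) * M :=
        (Complex.re_le_norm _).trans (hw1b τ hτ1)
      have h5 : -(w₂ τ).re ≤ 6 * K * M := by
        have := Complex.abs_re_le_norm (w₂ τ)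
        have := neg_abs_le (w₂ τ).re
        linarith [hw2b τ hτ1]
      have h6 : θ₁ * -(w₂ τ).re ≤ θ₁ * (6 * K * M) := mul_le_mul_of_nonneg_left h5 hθ₁
      nlinarith
  · have k1 := lin1 v w₁ Dv (6 * (K * θ₁) * D) hvc hw1c hBv hw1B
    have k2 := lin2 w₂ (6 * K * D) (-(θ₁ : ℂ)) hw2B
    rw [norm_neg, Complex.norm_real, Real.norm_eq_abs, abs_of_nonneg hθ₁] at k2
    have k3 := lin1 _ _ _ _ (hvc.add hw1c) (continuous_const.mul hw2c) k1 k2
    have k4 := lin3 _ _ ((hvc.add hw1c).add (continuous_const.mul hw2c)) k3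
    have e : Dv + 12 * (K * θ₁ * D) = Dv + 6 * (K * θ₁) * D + θ₁ * (6 * K * D) := by ring
    rw [e]
    exact k4

end Pool.Agent.Q154.SL
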