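import Mathlib
import Pool.Agent.Q167.SL.StmD

/-!
# Project SL2 of helper167, job K6: the kernel of the linear program is a strip kernel
-/

set_option autoImplicit false

open MeasureTheory Filter Topology

namespace Pool.Agent.Q154.SL

open Pool.Agent.Q167.SL

theorem k6 : S_k6 := by
  intro h1 h2 h3 h6 h4 hc3 hc1 hc2 η hη
  obtain ⟨a1, a2, a3, a4, a5, a6, a7, a8, a9, a10, a11⟩ := h1 η hη
  obtain ⟨b1, b2, b3, b4, b5, b6⟩ := h2 h1 η hη
  refine ⟨hη, fun s hs => (a1 s hs).1, fun s hs => (a1 s hs).2, b1, fun s => (a2 s).1, b2,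
    fun s => (a3 s).1, b3, fun s => (a3 s).2, fun s => (a2 s).2, fun φ => (a5 φ).1, b4, b6, ?_⟩
  intro ε hε
  obtain ⟨δ₁, hδ₁0, hδ₁η, hδ₁⟩ := h6 h1 h2 η (ε / 2) hη (by positivity)
  have hlim := h4 h1 h2 hc3 hc1 hc2 η hη
  have hev : ∀ᶠ x : ℝ in 𝓝[<] η, (Ps η (x + (Real.pi / 2 : ℝ) * Complex.I)).re -
      1 / 2 * Real.log ‖sg η (x + (Real.pi / 2 : ℝ) * Complex.I)‖ < 1 / 2 - Ph η + ε / 2 :=
    hlim.eventually (gt_mem_nhds (by linarith))
  rw [eventually_nhdsWithin_iff] at hev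
  obtain ⟨δ₂, hδ₂0, hδ₂⟩ := Metric.eventually_nhds_iff.1 hev
  refine ⟨min δ₁ (δ₂ / 2), lt_min hδ₁0 (by positivity), (min_le_left _ _).trans_lt hδ₁η, ?_⟩
  intro δ hδ0 hδ φ
  have hd1 : δ ≤ δ₁ := hδ.trans (min_le_left _ _)
  have hd2 : δ ≤ δ₂ / 2 := hδ.trans (min_le_right _ _)
  set x : ℝ := η - δ with hx
  have hx0 : 0 < x := by linarith
  have hxη : x < η := by linarith
  have hre : ∀ ψ : ℝ, ((x : ℂ) + ψ * Complex.I).re = x := fun ψ => by simp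
  have hxabs : |x| < η := by rw [abs_of_pos hx0]; exact hxη
  have hne : ∀ ψ : ℝ, sg η ((x : ℂ) + ψ * Complex.I) ≠ 0 := fun ψ =>
    a6 _ (by rw [hre]; exact hx0) (by rw [hre]; exact hxη)
  refine ⟨hne φ, ?_⟩
  set E : ℝ → ℝ := fun ψ => |(sg η ((x : ℂ) + ψ * Complex.I)).re| +
    (Ps η ((x : ℂ) + ψ * Complex.I)).re - 1 / 2 * Real.log ‖sg η ((x : ℂ) + ψ * Complex.I)‖
    with hE
  have hper : Function.Periodic E Real.pi := by
    intro ψ
    have e1 : (x : ℂ) + ((ψ + Real.pi : ℝ) : ℂ) * Complex.I =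
        ((x : ℂ) + ψ * Complex.I) + Real.pi * Complex.I := by
      push_cast
      ring
    have e2 : |((x : ℂ) + ψ * Complex.I).re| < η := by rw [hre]; exact hxabs
    simp only [hE]
    rw [e1, (a4 _).1, b5 _ e2, Complex.neg_re, abs_neg, norm_neg]
  set k : ℤ := round (φ / Real.pi) with hk
  have hkπ : |φ - k * Real.pi| ≤ Real.pi / 2 := by
    have h := abs_sub_round (φ / Real.pi)
    have hπ := Real.pi_pos
    have e : φ - k * Real.pi = (φ / Real.pi - round (φ / Real.pi)) * Real.pi := by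
      rw [sub_mul, div_mul_cancel₀ _ hπ.ne', hk]
    rw [e, abs_mul, abs_of_pos hπ]
    nlinarith
  have hEk : E φ = E (φ - k * Real.pi) := (hper.sub_int_mul_eq k).symm
  set ψ : ℝ := φ - k * Real.pi with hψ
  have hpos : 0 ≤ (sg η ((x : ℂ) + ψ * Complex.I)).re := h3 h1 η x ψ hη hx0.le hxη hkπ
  have hb := hδ₁ δ ψ hδ0 hd1 hkπ
  have hc : (Ps η ((x : ℝ) + (Real.pi / 2 : ℝ) * Complex.I)).re -
      1 / 2 * Real.log ‖sg η ((x : ℝ) + (Real.pi / 2 : ℝ) * Complex.I)‖ < 1 / 2 - Ph η + ε / 2 := by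
    refine hδ₂ ?_ hxη
    rw [Real.dist_eq, hx]
    rw [show η - δ - η = -δ by ring, abs_neg, abs_of_pos hδ0]
    linarith
  change E φ ≤ _
  rw [hEk]
  simp only [hE]
  rw [abs_of_nonneg hpos]
  rw [← hx] at hb
  linarith

end Pool.Agent.Q154.SL
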