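import Mathlib
import Pool.Agent.Q167.SL.StmC

/-!
# Project SL2 of helper167, job K7: the exponent is continuous and strictly decreasing
-/

set_option autoImplicit false

open MeasureTheory Filter Topology

namespace Pool.Agent.Q154.SL

open Pool.Agent.Q167.SL

/-- the function of one term -/
noncomputable def gc (x : ℝ) : ℝ := gz (Real.cosh x / Real.sinh x)

theorem coth_add {x : ℝ} (hx : 0 < x) :
    (Real.cosh x / Real.sinh x + 1) / 2 = Real.exp x / (2 * Real.sinh x) := by
  have hs : 0 < Real.sinh x := Real.sinh_pos_iff.2 hx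
  rw [← Real.cosh_add_sinh]
  field_simp

theorem coth_sub {x : ℝ} (hx : 0 < x) :
    (Real.cosh x / Real.sinh x - 1) / 2 = Real.exp (-x) / (2 * Real.sinh x) := by
  have hs : 0 < Real.sinh x := Real.sinh_pos_iff.2 hx
  rw [← Real.cosh_sub_sinh]
  field_simp

theorem gc_eq {x : ℝ} (hx : 0 < x) :
    gc x = x * (Real.cosh x / Real.sinh x) - Real.log (2 * Real.sinh x) := by
  have hs : 0 < Real.sinh x := Real.sinh_pos_iff.2 hx
  unfold gc gz
  have h1 : (Real.cosh x / Real.sinh x + 1) / 2 = Real.exp x / (2 * Real.sinh x) := coth_add hx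
  have h2 : (Real.cosh x / Real.sinh x - 1) / 2 = Real.exp (-x) / (2 * Real.sinh x) := coth_sub hx
  have h3 : Real.log ((Real.cosh x / Real.sinh x + 1) / 2) = x - Real.log (2 * Real.sinh x) := by
    rw [h1, Real.log_div (Real.exp_pos x).ne' (by positivity), Real.log_exp]
  have h4 : Real.log ((Real.cosh x / Real.sinh x - 1) / 2) = -x - Real.log (2 * Real.sinh x) := by
    rw [h2, Real.log_div (Real.exp_pos (-x)).ne' (by positivity), Real.log_exp]
  rw [h3, h4]
  ring

theorem gc_hasDeriv {x : ℝ} (hx : 0 < x) : HasDerivAt gc (-(x / Real.sinh x ^ 2)) x := by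
  have hs : 0 < Real.sinh x := Real.sinh_pos_iff.2 hx
  have h1 : HasDerivAt (fun y => y * (Real.cosh y / Real.sinh y) - Real.log (2 * Real.sinh y))
      ((1 * (Real.cosh x / Real.sinh x) +
        x * ((Real.sinh x * Real.sinh x - Real.cosh x * Real.cosh x) / Real.sinh x ^ 2)) -
        (2 * Real.cosh x) / (2 * Real.sinh x)) x := by
    refine HasDerivAt.sub ?_ ?_
    · exact (hasDerivAt_id x).mul ((Real.hasDerivAt_cosh x).div (Real.hasDerivAt_sinh x) hs.ne')
    · exact HasDerivAt.log ((Real.hasDerivAt_sinh x).const_mul 2) (by positivity)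
  have h2 : HasDerivAt gc ((1 * (Real.cosh x / Real.sinh x) +
        x * ((Real.sinh x * Real.sinh x - Real.cosh x * Real.cosh x) / Real.sinh x ^ 2)) -
        (2 * Real.cosh x) / (2 * Real.sinh x)) x := by
    refine h1.congr_of_eventuallyEq ?_
    filter_upwards [lt_mem_nhds hx] with y hy
    exact gc_eq hy
  convert h2 using 1
  have h3 : Real.cosh x ^ 2 = Real.sinh x ^ 2 + 1 := Real.cosh_sq x
  have h4 : Real.sinh x * Real.sinh x - Real.cosh x * Real.cosh x = -1 := by nlinarith
  rw [h4]
  field_simp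
  ring

/-- `0 ≤ gc x ≤ 2 exp (-x) / (1 - exp (-2 c))` for `x ≥ c` -/
theorem gc_bound {c x : ℝ} (hc : 0 < c) (hx : c ≤ x) :
    |gc x| ≤ 2 / (1 - Real.exp (-(2 * c))) * Real.exp (-x) := by
  have hx0 : 0 < x := hc.trans_le hx
  have hs : 0 < Real.sinh x := Real.sinh_pos_iff.2 hx0
  set q := Real.exp (-(2 * x)) with hq
  set k := 1 - Real.exp (-(2 * c)) with hk
  have hq0 : 0 < q := Real.exp_pos _
  have hq1 : q < 1 := Real.exp_lt_one_iff.2 (by linarith)
  have hk0 : 0 < k := by
    have : Real.exp (-(2 * c)) < 1 := Real.exp_lt_one_iff.2 (by linarith)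
    linarith
  have hqk : k ≤ 1 - q := by
    have : q ≤ Real.exp (-(2 * c)) := Real.exp_le_exp.2 (by linarith)
    linarith
  have hE : Real.exp x * Real.exp (-x) = 1 := by rw [← Real.exp_add]; simp
  have hqe : q = Real.exp (-x) * Real.exp (-x) := by rw [hq, ← Real.exp_add]; congr 1; ring
  have h2s : 2 * Real.sinh x = Real.exp x * (1 - q) := by
    rw [Real.sinh_eq, hqe]
    have : Real.exp x * (1 - Real.exp (-x) * Real.exp (-x)) =
      Real.exp x - (Real.exp x * Real.exp (-x)) * Real.exp (-x) := by ring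
    rw [this, hE]
    ring
  have hcoth : Real.cosh x / Real.sinh x = 1 + 2 * q / (1 - q) := by
    have h1q : (1 - q) ≠ 0 := by linarith
    rw [div_eq_iff hs.ne']
    have : Real.cosh x = Real.sinh x + Real.exp (-x) := by
      rw [← Real.cosh_sub_sinh]; ring
    rw [this]
    have h5 : 2 * q / (1 - q) * Real.sinh x = Real.exp (-x) := by
      have : Real.sinh x = Real.exp x * (1 - q) / 2 := by linarith
      rw [this]
      field_simp
      rw [hqe]
      have : Real.exp (-x) * Real.exp (-x) * Real.exp x = (Real.exp x * Real.exp (-x)) *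
        Real.exp (-x) := by ring
      linarith [this, hE, (by rw [this, hE, one_mul] :
        Real.exp (-x) * Real.exp (-x) * Real.exp x = Real.exp (-x))]
    linarith
  have hg : gc x = 2 * x * q / (1 - q) - Real.log (1 - q) := by
    rw [gc_eq hx0, hcoth, h2s, Real.log_mul (Real.exp_pos x).ne' (by linarith), Real.log_exp]
    ring
  have hl1 : 0 ≤ -Real.log (1 - q) := by
    have := Real.log_nonpos (by linarith : 0 ≤ 1 - q) (by linarith)
    linarith
  have hl2 : -Real.log (1 - q) ≤ q / (1 - q) := by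
    have := Real.one_sub_inv_le_log_of_pos (by linarith : 0 < 1 - q)
    have h6 : 1 - (1 - q)⁻¹ = -(q / (1 - q)) := by
      have : (1 - q) ≠ 0 := by linarith
      field_simp
      ring
    linarith
  have h7 : 0 ≤ 2 * x * q / (1 - q) := by
    have : 0 < 1 - q := by linarith
    positivity
  rw [hg, abs_of_nonneg (by linarith)]
  have h8 : 2 * x * q / (1 - q) - Real.log (1 - q) ≤ (1 + 2 * x) * q / (1 - q) := by
    have : (1 + 2 * x) * q / (1 - q) = 2 * x * q / (1 - q) + q / (1 - q) := by ring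
    linarith
  have h9 : (1 + 2 * x) * q / (1 - q) ≤ (1 + 2 * x) * q / k :=
    div_le_div_of_nonneg_left (by positivity) hk0 hqk
  have h10 : (1 + 2 * x) * q ≤ 2 * Real.exp (-x) := by
    have h11 : 1 + 2 * x ≤ 2 * Real.exp x := by
      have := Real.add_one_le_exp x
      linarith
    calc (1 + 2 * x) * q ≤ 2 * Real.exp x * q := mul_le_mul_of_nonneg_right h11 hq0.le
      _ = 2 * (Real.exp x * Real.exp (-x)) * Real.exp (-x) := by rw [hqe]; ring
      _ = 2 * Real.exp (-x) := by rw [hE]; ring
  calc 2 * x * q / (1 - q) - Real.log (1 - q) ≤ (1 + 2 * x) * q / k := h8.trans h9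
    _ ≤ 2 * Real.exp (-x) / k := div_le_div_of_nonneg_right h10 hk0.le
    _ = 2 / k * Real.exp (-x) := by ring

/-- the terms -/
noncomputable def tm (m : ℕ) (η : ℝ) : ℝ := gc ((m + 1) * η)

theorem Ph_eq (η : ℝ) : Ph η = ∑' m : ℕ, (-1) ^ m * tm m η := rfl

theorem tm_bound {c η : ℝ} (hc : 0 < c) (h : c ≤ η) (m : ℕ) :
    |(-1) ^ m * tm m η| ≤ 2 / (1 - Real.exp (-(2 * c))) * Real.exp (-c) ^ (m + 1) := by
  rw [abs_mul, abs_pow, abs_neg, abs_one, one_pow, one_mul]
  have hm : (0 : ℝ) ≤ m := Nat.cast_nonneg m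
  have h1 : c ≤ (m + 1) * η := by nlinarith
  have h2 := gc_bound hc h1
  have h3 : Real.exp (-((m + 1) * η)) ≤ Real.exp (-c) ^ (m + 1) := by
    rw [← Real.exp_nat_mul]
    apply Real.exp_le_exp.2
    push_cast
    nlinarith
  have h4 : 0 < 1 - Real.exp (-(2 * c)) := by
    have : Real.exp (-(2 * c)) < 1 := Real.exp_lt_one_iff.2 (by linarith)
    linarith
  exact h2.trans (mul_le_mul_of_nonneg_left h3 (by positivity))

theorem bound_summable {c : ℝ} (hc : 0 < c) :
    Summable (fun m : ℕ => 2 / (1 - Real.exp (-(2 * c))) * Real.exp (-c) ^ (m + 1)) := by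
  apply Summable.mul_left
  have h : Summable (fun m : ℕ => Real.exp (-c) ^ m) :=
    summable_geometric_of_lt_one (Real.exp_pos _).le (Real.exp_lt_one_iff.2 (by linarith))
  exact (summable_nat_add_iff 1).2 h

theorem tm_summable {η : ℝ} (hη : 0 < η) : Summable (fun m : ℕ => (-1) ^ m * tm m η) :=
  Summable.of_norm_bounded (bound_summable hη) fun m => by
    rw [Real.norm_eq_abs]; exact tm_bound hη le_rfl m

theorem tm_summable' {η : ℝ} (hη : 0 < η) : Summable (fun m : ℕ => tm m η) :=
  Summable.of_norm_bounded (bound_summable hη) fun m => by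
    have h := tm_bound hη le_rfl m
    rw [abs_mul, abs_pow, abs_neg, abs_one, one_pow, one_mul] at h
    rw [Real.norm_eq_abs]; exact h

theorem Ph_cont : ContinuousOn Ph (Set.Ioi 0) := by
  intro η hη
  have hη0 : 0 < η := hη
  have hc : 0 < η / 2 := by linarith
  have h1 : ContinuousOn (fun η : ℝ => ∑' m : ℕ, (-1) ^ m * tm m η) (Set.Ici (η / 2)) := by
    refine continuousOn_tsum (fun m => ?_) (bound_summable hc) (fun m x hx => ?_)
    · intro x hx
      have hx0 : 0 < x := lt_of_lt_of_le hc hx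
      have hm : (0 : ℝ) ≤ m := Nat.cast_nonneg m
      have h2 : ContinuousAt gc ((m + 1) * x) := (gc_hasDeriv (by positivity)).continuousAt
      apply ContinuousAt.continuousWithinAt
      apply ContinuousAt.mul continuousAt_const
      exact ContinuousAt.comp (f := fun x : ℝ => ((m : ℝ) + 1) * x) h2 (by fun_prop)
    · rw [Real.norm_eq_abs]
      exact tm_bound hc hx m
  have h2 : ContinuousAt Ph η := h1.continuousAt (Ici_mem_nhds (by linarith))
  exact h2.continuousWithinAt

/-- `sinh (a η) / a < sinh (b η) / b` for `a < b` -/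
theorem sinh_lt {a b η : ℝ} (ha : 0 < a) (hab : a < b) (hη : 0 < η) :
    b * Real.sinh (a * η) < a * Real.sinh (b * η) := by
  have hmono : StrictMonoOn (fun t : ℝ => a * Real.sinh (b * t) - b * Real.sinh (a * t))
      (Set.Ici 0) := by
    apply strictMonoOn_of_deriv_pos (convex_Ici 0)
    · fun_prop
    · intro t ht
      rw [interior_Ici] at ht
      have ht0 : 0 < t := ht
      have hd : HasDerivAt (fun t : ℝ => a * Real.sinh (b * t) - b * Real.sinh (a * t))
          (a * (Real.cosh (b * t) * (b * 1)) - b * (Real.cosh (a * t) * (a * 1))) t := by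
        refine HasDerivAt.sub ?_ ?_
        · exact ((Real.hasDerivAt_sinh _).comp t ((hasDerivAt_id t).const_mul b)).const_mul a
        · exact ((Real.hasDerivAt_sinh _).comp t ((hasDerivAt_id t).const_mul a)).const_mul b
      rw [hd.deriv]
      have h1 : Real.cosh (a * t) < Real.cosh (b * t) := by
        rw [Real.cosh_lt_cosh, abs_of_pos (by positivity), abs_of_pos (by
          have : 0 < b := ha.trans hab
          positivity)]
        exact mul_lt_mul_of_pos_right hab ht0
      have h2 : 0 < a * b := mul_pos ha (ha.trans hab)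
      nlinarith
  have h := hmono (Set.mem_Ici.2 le_rfl) (Set.mem_Ici.2 hη.le) hη
  simp only [mul_zero, Real.sinh_zero, sub_self] at h
  linarith

theorem pair_anti {a b : ℝ} (ha : 0 < a) (hab : a < b) :
    StrictAntiOn (fun η : ℝ => gc (a * η) - gc (b * η)) (Set.Ioi 0) := by
  have hb : 0 < b := ha.trans hab
  have hD : ∀ t : ℝ, 0 < t → HasDerivAt (fun η : ℝ => gc (a * η) - gc (b * η))
      (-(a * t / Real.sinh (a * t) ^ 2) * (a * 1) - -(b * t / Real.sinh (b * t) ^ 2) * (b * 1))
      t := by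
    intro t ht
    refine HasDerivAt.sub ?_ ?_
    · exact HasDerivAt.comp (h := fun η : ℝ => a * η) t (gc_hasDeriv (by positivity))
        ((hasDerivAt_id t).const_mul a)
    · exact HasDerivAt.comp (h := fun η : ℝ => b * η) t (gc_hasDeriv (by positivity))
        ((hasDerivAt_id t).const_mul b)
  apply strictAntiOn_of_deriv_neg (convex_Ioi 0)
  · intro t ht
    exact (hD t ht).continuousAt.continuousWithinAt
  · intro t ht
    rw [interior_Ioi] at ht
    have ht0 : 0 < t := ht
    rw [(hD t ht0).deriv]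
    have h1 := sinh_lt ha hab ht0
    have s1 : 0 < Real.sinh (a * t) := Real.sinh_pos_iff.2 (by positivity)
    have s2 : 0 < Real.sinh (b * t) := Real.sinh_pos_iff.2 (by positivity)
    have h2 : b / Real.sinh (b * t) < a / Real.sinh (a * t) := by
      rw [div_lt_div_iff₀ s2 s1]
      exact h1
    have h3 : (b / Real.sinh (b * t)) ^ 2 < (a / Real.sinh (a * t)) ^ 2 :=
      pow_lt_pow_left₀ h2 (by positivity) (by norm_num)
    have h4 : -(a * t / Real.sinh (a * t) ^ 2) * (a * 1) -
        -(b * t / Real.sinh (b * t) ^ 2) * (b * 1) =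
        t * ((b / Real.sinh (b * t)) ^ 2 - (a / Real.sinh (a * t)) ^ 2) := by
      rw [div_pow, div_pow]
      ring
    rw [h4]
    exact mul_neg_of_pos_of_neg ht0 (by linarith)

theorem Ph_pair {η : ℝ} (hη : 0 < η) :
    Summable (fun j : ℕ => tm (2 * j) η - tm (2 * j + 1) η) ∧
    Ph η = ∑' j : ℕ, (tm (2 * j) η - tm (2 * j + 1) η) := by
  have hs := tm_summable' hη
  have he : Summable (fun j : ℕ => tm (2 * j) η) :=
    hs.comp_injective (i := fun j : ℕ => 2 * j) (fun i j h => by simpa using h)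
  have ho : Summable (fun j : ℕ => tm (2 * j + 1) η) :=
    hs.comp_injective (i := fun j : ℕ => 2 * j + 1) (fun i j h => by simpa using h)
  refine ⟨he.sub ho, ?_⟩
  have e1 : ∀ j : ℕ, (-1 : ℝ) ^ (2 * j) * tm (2 * j) η = tm (2 * j) η := fun j => by
    rw [pow_mul]; simp
  have e2 : ∀ j : ℕ, (-1 : ℝ) ^ (2 * j + 1) * tm (2 * j + 1) η = -tm (2 * j + 1) η := fun j => by
    rw [pow_succ, pow_mul]; simp
  rw [Ph_eq, ← tsum_even_add_odd (f := fun m : ℕ => (-1) ^ m * tm m η)]
  · simp only [e1, e2]
    rw [tsum_neg, ← sub_eq_add_neg, he.tsum_sub ho]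
  · simp only [e1]
    exact he
  · simp only [e2]
    exact ho.neg

theorem Ph_anti : StrictAntiOn Ph (Set.Ioi 0) := by
  intro x hx y hy hxy
  obtain ⟨sx, ex⟩ := Ph_pair (show 0 < x from hx)
  obtain ⟨sy, ey⟩ := Ph_pair (show 0 < y from hy)
  rw [ex, ey]
  have key : ∀ j : ℕ, tm (2 * j) y - tm (2 * j + 1) y < tm (2 * j) x - tm (2 * j + 1) x := by
    intro j
    have hj : (0 : ℝ) ≤ j := Nat.cast_nonneg j
    have h := pair_anti (a := ((2 * j : ℕ) : ℝ) + 1) (b := ((2 * j + 1 : ℕ) : ℝ) + 1)
      (by positivity) (by push_cast; linarith) hx hy hxy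
    exact h
  exact Summable.tsum_lt_tsum (i := 0) (fun j => (key j).le) (key 0) sy sx

theorem k7 : S_k7 := ⟨Ph_cont, Ph_anti⟩

end Pool.Agent.Q154.SL
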