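import Mathlib
import Pool.Agent.Q167.SL.StmD
import Pool.Agent.TH41.BL.MN10

/-!
# Project SL2 of helper167, job UPC: the upper bound a little beyond the threshold, from the bound for
finitely supported distributions
-/

set_option autoImplicit false

open MeasureTheory Filter Topology

namespace Pool.Agent.Q154.SL

open Pool.Agent.Q167.SL
open Pool.Agent.TH41.BL (SAux mn SLP S10_mx)
open Pool.Agent.TH41.SC
open Pool.Agent.W48.KS (ph mx)
open Finset

theorem ph_lt_one {c : ℝ} (hc : 0 < c) : ph c < 1 := by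
  unfold ph
  rw [Real.sqrt_lt' one_pos, one_pow, div_lt_one (by linarith)]
  linarith

theorem upcA (hm : S10_mx) : S_upc := by
  intro η ε hη hε
  obtain ⟨h0, h1⟩ := sq_s hη
  set r : ℝ := Real.exp (-η) ^ 2 with hr
  have hcc : ∀ k : ℕ, 0 < cc r (2 * k + 1) := fun k => cc_pos h0 h1 _ (by omega)
  set μ := (∑' k, a r k * ph (cc r (2 * k + 1))) / ∑' k, a r k with hμ
  have ha := a_tsum_pos h0 h1
  have has : Summable (a r) := a_summable h0 h1
  have hap : Summable (fun k => a r k * ph (cc r (2 * k + 1))) :=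
    Summable.of_nonneg_of_le (fun k => mul_nonneg (a_pos h0 h1 k).le (ph_nonneg _))
      (fun k => by
        have := mul_le_mul_of_nonneg_left (ph_le_one (hcc k)) (a_pos h0 h1 k).le
        simpa using this) has
  have hμ1 : μ < 1 := by
    rw [hμ, div_lt_one ha]
    refine Summable.tsum_lt_tsum (i := 0) (fun k => ?_) ?_ hap has
    · have := mul_le_mul_of_nonneg_left (ph_le_one (hcc k)) (a_pos h0 h1 k).le
      simpa using this
    · have := mul_lt_mul_of_pos_left (ph_lt_one (hcc 0)) (a_pos h0 h1 0)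
      simpa using this
  have hμe : eS η / oS η = μ := by
    have e1 : eS η = evenSum η := rfl
    have e2 : oS η = oddSum η := rfl
    rw [e1, e2, oddSum_eq hη, evenSum_eq hη, hμ]
    have := Real.exp_pos (-η)
    rw [mul_div_mul_left _ _ (by positivity)]
  obtain ⟨P, hP0, hP⟩ := ph_big hμ1
  obtain ⟨δ, hδ0, hδ1, hδ⟩ : ∃ δ : ℝ, 0 < δ ∧ δ < 1 ∧ -(1 / 2 * Real.log (1 - δ)) < ε / 3 := by
    have hlim : Tendsto (fun δ : ℝ => -(1 / 2 * Real.log (1 - δ))) (𝓝[>] 0) (𝓝 0) := by
      have : Tendsto (fun δ : ℝ => -(1 / 2 * Real.log (1 - δ))) (𝓝 0)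
          (𝓝 (-(1 / 2 * Real.log (1 - 0)))) := by
        apply ContinuousAt.tendsto
        apply ContinuousAt.neg
        apply ContinuousAt.mul continuousAt_const
        apply ContinuousAt.log
        · fun_prop
        · norm_num
      simp only [sub_zero, Real.log_one, mul_zero, neg_zero] at this
      exact this.mono_left nhdsWithin_le_nhds
    have h2 := hlim.eventually (gt_mem_nhds (by positivity : (0 : ℝ) < ε / 3))
    have h3 : ∀ᶠ δ : ℝ in 𝓝[>] 0, δ < 1 :=
      (Filter.Tendsto.eventually (tendsto_id.mono_left nhdsWithin_le_nhds)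
        (gt_mem_nhds one_pos))
    obtain ⟨δ, ⟨h4, h5⟩, h6⟩ := ((h2.and h3).and self_mem_nhdsWithin).exists
    exact ⟨δ, h6, h5, h4⟩
  refine ⟨δ * (ph P - μ), mul_pos hδ0 (by linarith), fun κ hκ1 hκ => ?_⟩
  rw [hμe] at hκ
  have hsd : 0 < √(2 - 2 * κ) := Real.sqrt_pos.mpr (by linarith)
  have hsq : 1 - √(2 - 2 * κ) ^ 2 / 2 = κ := by
    rw [Real.sq_sqrt (by linarith)]
    ring
  have hlim1 := mean_lim h0 h1 (fun k => ph (cc r (2 * k + 1))) (fun k => by
    rw [abs_of_nonneg (ph_nonneg _)]; exact ph_le_one (hcc k))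
  have hlim2 := alt_lim h0 h1
  have hgt : κ < δ * ph P + (1 - δ) * μ := by
    have : δ * ph P + (1 - δ) * μ = μ + δ * (ph P - μ) := by ring
    linarith
  have hlim3 : Tendsto (fun M => δ * ph P + (1 - δ) * ∑ k ∈ range (M + 1), W r M k *
      ph (cc r (2 * k + 1))) atTop (𝓝 (δ * ph P + (1 - δ) * μ)) :=
    tendsto_const_nhds.add (tendsto_const_nhds.mul hlim1)
  obtain ⟨M, hM1, hM2⟩ := ((hlim3.eventually (lt_mem_nhds hgt)).and
    (hlim2.eventually (gt_mem_nhds (show Φ r < Φ r + ε / 3 by linarith)))).exists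
  set w : Fin (M + 1) → ℝ := fun k => W r M k with hw
  set c : Fin (M + 1) → ℝ := fun k => cc r (2 * k + 1) with hc
  have hwpos : ∀ j, 0 < w j := fun j => W_pos h0 h1 M j (Nat.lt_succ_iff.1 j.2)
  have hcpos : ∀ j, 0 < c j := fun j => hcc j
  have hwsum : ∑ j, w j = 1 := by
    rw [hw, Fin.sum_univ_eq_sum_range (fun k => W r M k)]
    exact W_sum h0 h1 M
  have hmx : mx w c < Φ r + ε / 3 := by
    rw [hw, hc, mx_eq h0 h1]
    exact hM2
  have hcons := mx_cons hwpos hcpos hδ0 hδ1 hP0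
  have e0 : 0 < 1 - δ := by linarith
  obtain ⟨N0, hN0⟩ := hm (n := M + 1) (w := Fin.cons δ fun j => (1 - δ) * w j)
    (c := Fin.cons P c)
    (fun j => by
      refine Fin.cases ?_ (fun i => ?_) j
      · simpa using hδ0
      · simp only [Fin.cons_succ]; exact mul_pos e0 (hwpos i))
    (by
      rw [Fin.sum_univ_succ]
      simp only [Fin.cons_zero, Fin.cons_succ]
      rw [← mul_sum, hwsum]
      ring)
    (fun j => by
      refine Fin.cases ?_ (fun i => ?_) j
      · simpa using hP0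
      · simp only [Fin.cons_succ]; exact hcpos i)
    (sd := √(2 - 2 * κ)) hsd
    (by
      rw [hsq, Fin.sum_univ_succ]
      simp only [Fin.cons_zero, Fin.cons_succ]
      have e3 : ∑ i, (1 - δ) * w i * ph (c i) =
          (1 - δ) * ∑ k ∈ range (M + 1), W r M k * ph (cc r (2 * k + 1)) := by
        rw [← Fin.sum_univ_eq_sum_range (fun k => W r M k * ph (cc r (2 * k + 1))), mul_sum]
        exact sum_congr rfl fun i _ => by rw [mul_assoc]
      rw [e3]
      exact hM1)
    (ε / 3) (by positivity)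
  filter_upwards [eventually_ge_atTop N0] with n hn
  obtain ⟨g, hg1, hg2, hg3⟩ := hN0 n hn
  rw [hsq] at hg1
  refine ⟨g, hg1.continuousOn, hg1.posdef, hg1.nonpos, hg2, hg3.trans ?_⟩
  have hPh : Ph η = Φ r := Ψ_eq hη
  rw [hPh]
  apply Real.exp_le_exp.2
  apply mul_le_mul_of_nonneg_left _ (Nat.cast_nonneg n)
  linarith

end Pool.Agent.Q154.SL
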