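import Mathlib
import Pool.Agent.Q154.SL.UpcA
import Pool.Agent.TH41.BL.ASM10

/-!
# Project SL2 of helper167, job UPC: the upper bound a little beyond the threshold
-/

set_option autoImplicit false

namespace Pool.Agent.Q154.SL

theorem upc : Pool.Agent.Q167.SL.S_upc := upcA Pool.Agent.TH41.BL.k10_mx

end Pool.Agent.Q154.SL
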